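import Mathlib

/-! The entire function `B m s = ∑ (-s)^k / (k! (k+m)!)` (Bessel–Clifford) and `J_m`. -/

open Set Real Filter Topology

namespace TH259.NS

/-- the `k`-th term -/
noncomputable def bt (m k : ℕ) (s : ℝ) : ℝ :=
  (-1) ^ k * s ^ k / ((k.factorial : ℝ) * ((k + m).factorial : ℝ))

/-- Bessel–Clifford function -/
noncomputable def B (m : ℕ) (s : ℝ) : ℝ := ∑' k, bt m k s

/-- Bessel function of the first kind -/
noncomputable def J (m : ℕ) (t : ℝ) : ℝ :=
  ∑' k : ℕ, (-1) ^ k / ((k.factorial : ℝ) * ((k + m).factorial : ℝ)) * (t / 2) ^ (2 * k + m)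

theorem bt_abs (m k : ℕ) (s : ℝ) : |bt m k s| ≤ |s| ^ k / (k.factorial : ℝ) := by
  unfold bt
  rw [abs_div, abs_mul, abs_pow, abs_neg, abs_one, one_pow, one_mul, abs_pow]
  have h1 : (0 : ℝ) < k.factorial := by positivity
  have h2 : (1 : ℝ) ≤ (k + m).factorial := by exact_mod_cast Nat.one_le_iff_ne_zero.2 (Nat.factorial_ne_zero _)
  rw [abs_of_pos (show (0 : ℝ) < (k.factorial : ℝ) * ((k + m).factorial : ℝ) by positivity)]
  apply div_le_div_of_nonneg_left (by positivity) h1
  nlinarith

theorem bt_summable (m : ℕ) (s : ℝ) : Summable fun k => bt m k s :=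
  Summable.of_norm_bounded (Real.summable_pow_div_factorial |s|) fun k => by
    rw [Real.norm_eq_abs]; exact bt_abs m k s

theorem B_deriv (m : ℕ) (s : ℝ) : HasDerivAt (B m) (-B (m + 1) s) s := by
  set M : ℝ := |s| + 1 with hM
  have hM0 : 0 < M := by positivity
  set u : ℕ → ℝ := fun k => k * M ^ (k - 1) / (k.factorial : ℝ) with hu
  have hus : Summable u := by
    rw [← summable_nat_add_iff 1]
    have h := Real.summable_pow_div_factorial M
    refine h.congr fun k => ?_
    rw [hu]
    simp only [Nat.add_sub_cancel]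
    rw [Nat.factorial_succ]
    push_cast
    have : (k.factorial : ℝ) ≠ 0 := by positivity
    field_simp
  set g' : ℕ → ℝ → ℝ := fun k y =>
    (-1) ^ k * (k * y ^ (k - 1)) / ((k.factorial : ℝ) * ((k + m).factorial : ℝ)) with hg'
  have key := hasDerivAt_tsum_of_isPreconnected (g := fun k y => bt m k y) (g' := g') (u := u)
    (t := Metric.ball (0 : ℝ) M) (y₀ := s) (y := s) hus Metric.isOpen_ball
    (convex_ball _ _).isPreconnected (fun k y _ => ?_) (fun k y hy => ?_)
    (by rw [mem_ball_zero_iff, Real.norm_eq_abs, hM]; linarith) (bt_summable m s)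
    (by rw [mem_ball_zero_iff, Real.norm_eq_abs, hM]; linarith)
  · have e : ∑' k, g' k s = -B (m + 1) s := by
      have hs' : Summable fun k => g' k s := by
        refine Summable.of_norm_bounded hus fun k => ?_
        have hy : |s| ≤ M := by rw [hM]; linarith
        rw [hg', hu]
        simp only
        rw [norm_div, norm_mul, norm_mul, norm_pow, norm_neg, norm_one, one_pow, one_mul, norm_pow,
          Real.norm_eq_abs, Real.norm_eq_abs, Real.norm_eq_abs, abs_of_nonneg (Nat.cast_nonneg k),
          abs_of_pos (show (0 : ℝ) < (k.factorial : ℝ) * ((k + m).factorial : ℝ) by positivity)]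
        have h2 : (1 : ℝ) ≤ (k + m).factorial := by
          exact_mod_cast Nat.one_le_iff_ne_zero.2 (Nat.factorial_ne_zero _)
        have h1 : (0 : ℝ) < k.factorial := by positivity
        have h3 : |s| ^ (k - 1) ≤ M ^ (k - 1) := pow_le_pow_left₀ (abs_nonneg _) hy _
        have h4 : (k.factorial : ℝ) ≤ (k.factorial : ℝ) * ((k + m).factorial : ℝ) := by nlinarith
        exact div_le_div₀ (by positivity) (by gcongr) h1 h4
      rw [hs'.tsum_eq_zero_add]
      have h0 : g' 0 s = 0 := by rw [hg']; simp
      rw [h0, zero_add]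
      unfold B
      rw [← tsum_neg]
      refine tsum_congr fun k => ?_
      rw [hg']
      unfold bt
      simp only [Nat.add_sub_cancel]
      rw [Nat.factorial_succ, show k + 1 + m = k + (m + 1) by ring]
      push_cast
      have h1 : (k.factorial : ℝ) ≠ 0 := by positivity
      have h2 : ((k + (m + 1)).factorial : ℝ) ≠ 0 := by positivity
      have h3 : (k : ℝ) + 1 ≠ 0 := by positivity
      field_simp
      ring
    rw [e] at key
    exact key
  · rw [hg']
    have h := ((hasDerivAt_pow k y).const_mul ((-1 : ℝ) ^ k)).div_const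
      ((k.factorial : ℝ) * ((k + m).factorial : ℝ))
    exact h
  · have hy : |y| ≤ M := by
      rw [mem_ball_zero_iff, Real.norm_eq_abs] at hy
      exact hy.le
    rw [hg', hu]
    simp only
    rw [norm_div, norm_mul, norm_mul, norm_pow, norm_neg, norm_one, one_pow, one_mul, norm_pow,
      Real.norm_eq_abs, Real.norm_eq_abs, Real.norm_eq_abs, abs_of_nonneg (Nat.cast_nonneg k),
      abs_of_pos (show (0 : ℝ) < (k.factorial : ℝ) * ((k + m).factorial : ℝ) by positivity)]
    have h2 : (1 : ℝ) ≤ (k + m).factorial := by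
      exact_mod_cast Nat.one_le_iff_ne_zero.2 (Nat.factorial_ne_zero _)
    have h1 : (0 : ℝ) < k.factorial := by positivity
    have h3 : |y| ^ (k - 1) ≤ M ^ (k - 1) := pow_le_pow_left₀ (abs_nonneg _) hy _
    have h4 : (k.factorial : ℝ) ≤ (k.factorial : ℝ) * ((k + m).factorial : ℝ) := by nlinarith
    exact div_le_div₀ (by positivity) (by gcongr) h1 h4

theorem B_cont (m : ℕ) : Continuous (B m) :=
  continuous_iff_continuousAt.2 fun s => (B_deriv m s).continuousAt

theorem B_zero (m : ℕ) : B m 0 = 1 / (m.factorial : ℝ) := by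
  unfold B
  rw [tsum_eq_single 0]
  · unfold bt; simp
  · intro k hk
    unfold bt
    rw [zero_pow hk]
    simp

/-- the differential equation -/
theorem B_ode (n : ℕ) (s : ℝ) : s * B (n + 2) s - (n + 1) * B (n + 1) s + B n s = 0 := by
  unfold B
  have h0 := bt_summable n s
  have h1 := bt_summable (n + 1) s
  have h2 := bt_summable (n + 2) s
  -- shift the first series
  have e2 : s * ∑' k, bt (n + 2) k s
      = ∑' k : ℕ, (if k = 0 then 0 else
        -((-1) ^ k * s ^ k * k / ((k.factorial : ℝ) * ((k + n + 1).factorial : ℝ)))) := by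
    have hs : Summable fun k : ℕ => (if k = 0 then (0 : ℝ) else
        -((-1) ^ k * s ^ k * k / ((k.factorial : ℝ) * ((k + n + 1).factorial : ℝ)))) := by
      rw [← summable_nat_add_iff 1]
      refine (h2.mul_left s).congr fun k => ?_
      rw [if_neg (Nat.succ_ne_zero k)]
      unfold bt
      rw [Nat.factorial_succ, show k + 1 + n + 1 = k + (n + 2) by ring]
      push_cast
      have h1 : (k.factorial : ℝ) ≠ 0 := by positivity
      have h2 : ((k + (n + 2)).factorial : ℝ) ≠ 0 := by positivity
      have h3 : (k : ℝ) + 1 ≠ 0 := by positivity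
      field_simp
      ring
    rw [hs.tsum_eq_zero_add, if_pos rfl, zero_add, ← tsum_mul_left]
    refine tsum_congr fun k => ?_
    rw [if_neg (Nat.succ_ne_zero k)]
    unfold bt
    rw [Nat.factorial_succ, show k + 1 + n + 1 = k + (n + 2) by ring]
    push_cast
    have h1 : (k.factorial : ℝ) ≠ 0 := by positivity
    have h2 : ((k + (n + 2)).factorial : ℝ) ≠ 0 := by positivity
    have h3 : (k : ℝ) + 1 ≠ 0 := by positivity
    field_simp
    ring
  have hs : Summable fun k : ℕ => (if k = 0 then (0 : ℝ) else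
      -((-1) ^ k * s ^ k * k / ((k.factorial : ℝ) * ((k + n + 1).factorial : ℝ)))) := by
    rw [← summable_nat_add_iff 1]
    refine (h2.mul_left s).congr fun k => ?_
    rw [if_neg (Nat.succ_ne_zero k)]
    unfold bt
    rw [Nat.factorial_succ, show k + 1 + n + 1 = k + (n + 2) by ring]
    push_cast
    have h1 : (k.factorial : ℝ) ≠ 0 := by positivity
    have h2 : ((k + (n + 2)).factorial : ℝ) ≠ 0 := by positivity
    have h3 : (k : ℝ) + 1 ≠ 0 := by positivity
    field_simp
    ring
  rw [e2, ← tsum_mul_left, ← hs.tsum_sub (h1.mul_left _), ← (hs.sub (h1.mul_left _)).tsum_add h0]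
  have hz : ∀ k : ℕ, (if k = 0 then (0 : ℝ) else
      -((-1) ^ k * s ^ k * k / ((k.factorial : ℝ) * ((k + n + 1).factorial : ℝ))))
      - (↑n + 1) * bt (n + 1) k s + bt n k s = 0 := by
    intro k
    have e : (if k = 0 then (0 : ℝ) else
      -((-1) ^ k * s ^ k * k / ((k.factorial : ℝ) * ((k + n + 1).factorial : ℝ))))
      = -((-1) ^ k * s ^ k * k / ((k.factorial : ℝ) * ((k + n + 1).factorial : ℝ))) := by
      split_ifs with h
      · rw [h]; simp
      · rfl
    rw [e]
    unfold bt
    rw [show k + (n + 1) = (k + n) + 1 by ring, Nat.factorial_succ (k + n)]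
    push_cast
    have h1 : (k.factorial : ℝ) ≠ 0 := by positivity
    have h2 : ((k + n).factorial : ℝ) ≠ 0 := by positivity
    have h3 : (k : ℝ) + n + 1 ≠ 0 := by positivity
    field_simp
    ring
  simp only [hz, tsum_zero]

theorem J_eq (m : ℕ) (t : ℝ) : J m t = (t / 2) ^ m * B m (t ^ 2 / 4) := by
  unfold J B
  rw [← tsum_mul_left]
  refine tsum_congr fun k => ?_
  unfold bt
  have e : (t / 2) ^ (2 * k + m) = (t / 2) ^ m * (t ^ 2 / 4) ^ k := by
    rw [pow_add, pow_mul, show (t / 2) ^ 2 = t ^ 2 / 4 by ring]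
    ring
  rw [e]
  ring

end TH259.NS
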