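import Pool.Agent.TH298.Sch.RotInv

/-! A rotation invariant domain with connected complement is a disc. -/

open MeasureTheory Set Real Filter Topology Metric
open Pool.Agent.TH298.Sch

namespace TH259.NS

/-- a rotation invariant bounded open set with connected complement is a disc -/
theorem disc_of_rot {Ω : Set ℂ} (ho : IsOpen Ω) (hb : Bornology.IsBounded Ω)
    (hne : Ω.Nonempty) (hco : IsPreconnected Ωᶜ) (hint : interior (closure Ω) = Ω)
    (hrot : ∀ t : ℝ, ∀ x ∈ Ω, ro t * x ∈ closure Ω) :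
    ∃ r : ℝ, 0 < r ∧ Ω = ball 0 r := by
  have hro0 : ∀ t, ro t ≠ 0 := fun t => Complex.exp_ne_zero _
  have hinv : ∀ t : ℝ, ∀ x ∈ Ω, ro t * x ∈ Ω := by
    intro t x hx
    rw [← hint]
    have h1 : (fun y => ro t * y) '' Ω ⊆ closure Ω := by
      rintro _ ⟨y, hy, rfl⟩
      exact hrot t y hy
    have h2 : IsOpen ((fun y => ro t * y) '' Ω) :=
      (Homeomorph.mulLeft₀ (ro t) (hro0 t)).isOpenMap Ω ho
    exact interior_maximal h1 h2 ⟨x, hx, rfl⟩
  have hsph : ∀ x ∈ Ω, ∀ y : ℂ, ‖y‖ = ‖x‖ → y ∈ Ω := by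
    intro x hx y hy
    have h1 := hinv (Complex.arg y - Complex.arg x) x hx
    have hxx : x = ‖x‖ * Complex.exp (Complex.arg x * Complex.I) :=
      (Complex.norm_mul_exp_arg_mul_I x).symm
    have hyy : y = ‖y‖ * Complex.exp (Complex.arg y * Complex.I) :=
      (Complex.norm_mul_exp_arg_mul_I y).symm
    have e : ro (Complex.arg y - Complex.arg x) * x = y := by
      calc ro (Complex.arg y - Complex.arg x) * x
          = ro (Complex.arg y - Complex.arg x) * (‖x‖ * Complex.exp (Complex.arg x * Complex.I)) := by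
            rw [← hxx]
        _ = ‖x‖ * Complex.exp (Complex.arg y * Complex.I) := by
            unfold ro
            rw [mul_left_comm, ← Complex.exp_add]
            congr 2
            push_cast
            ring
        _ = y := by rw [← hy, ← hyy]
    rwa [e] at h1
  obtain ⟨R, hR⟩ := hb.subset_closedBall 0
  have hR' : ∀ x ∈ Ω, ‖x‖ ≤ R := fun x hx => by
    have := hR hx
    rwa [mem_closedBall_zero_iff] at this
  -- inner points
  have hfill : ∀ x ∈ Ω, ∀ y : ℂ, ‖y‖ < ‖x‖ → y ∈ Ω := by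
    intro x hx y hy
    by_contra hcon
    have hU : IsOpen {z : ℂ | ‖z‖ < ‖x‖} := isOpen_lt continuous_norm continuous_const
    have hV : IsOpen {z : ℂ | ‖x‖ < ‖z‖} := isOpen_lt continuous_const continuous_norm
    have hcov : Ωᶜ ⊆ {z : ℂ | ‖z‖ < ‖x‖} ∪ {z : ℂ | ‖x‖ < ‖z‖} := by
      intro z hz
      rcases lt_trichotomy ‖z‖ ‖x‖ with h | h | h
      · exact Or.inl h
      · exact absurd (hsph x hx z h) hz
      · exact Or.inr h
    have hfar : ((R + ‖x‖ + 1 : ℝ) : ℂ) ∈ Ωᶜ ∩ {z : ℂ | ‖x‖ < ‖z‖} := by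
      have hR0 : 0 ≤ R := (norm_nonneg x).trans (hR' x hx)
      have hn : ‖((R + ‖x‖ + 1 : ℝ) : ℂ)‖ = R + ‖x‖ + 1 := by
        rw [Complex.norm_real, Real.norm_eq_abs, abs_of_nonneg (by positivity)]
      constructor
      · intro h
        have h1 := hR' _ h
        rw [hn] at h1
        linarith [norm_nonneg x]
      · change ‖x‖ < ‖((R + ‖x‖ + 1 : ℝ) : ℂ)‖
        rw [hn]
        linarith
    obtain ⟨z, _, hz1, hz2⟩ := hco _ _ hU hV hcov ⟨y, hcon, hy⟩ ⟨_, hfar⟩
    exact lt_asymm (show ‖z‖ < ‖x‖ from hz1) hz2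
  have hbdd : BddAbove (norm '' Ω) := by
    refine ⟨R, ?_⟩
    rintro _ ⟨x, hx, rfl⟩
    exact hR' x hx
  have hlt : ∀ x ∈ Ω, ‖x‖ < sSup (norm '' Ω) := by
    intro x hx
    obtain ⟨δ, hδ0, hδ⟩ := Metric.isOpen_iff.1 ho x hx
    obtain ⟨e, he1, he2⟩ : ∃ e : ℂ, ‖e‖ = 1 ∧ ‖x + (δ / 2 : ℝ) * e‖ = ‖x‖ + δ / 2 := by
      rcases eq_or_ne x 0 with h0 | h0
      · refine ⟨1, by simp, ?_⟩
        rw [h0, zero_add, norm_zero, zero_add, mul_one, Complex.norm_real, Real.norm_eq_abs,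
          abs_of_pos (by linarith)]
      · have hx0 : (‖x‖ : ℂ) ≠ 0 := by exact_mod_cast (norm_ne_zero_iff.2 h0)
        have hx1 : 0 < ‖x‖ := norm_pos_iff.2 h0
        refine ⟨x / ‖x‖, ?_, ?_⟩
        · rw [norm_div, Complex.norm_real, norm_norm, div_self hx1.ne']
        · have : x + (δ / 2 : ℝ) * (x / ‖x‖) = x * (((1 + δ / 2 / ‖x‖ : ℝ)) : ℂ) := by
            push_cast
            field_simp
          rw [this, norm_mul, Complex.norm_real, Real.norm_eq_abs,
            abs_of_pos (by positivity)]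
          field_simp
    have h1 : x + (δ / 2 : ℝ) * e ∈ Ω := by
      apply hδ
      rw [mem_ball, dist_eq_norm, add_sub_cancel_left, norm_mul, he1, mul_one, Complex.norm_real,
        Real.norm_eq_abs, abs_of_pos (by linarith)]
      linarith
    have h2 := le_csSup hbdd (mem_image_of_mem norm h1)
    rw [he2] at h2
    linarith
  obtain ⟨x0, hx0⟩ := hne
  refine ⟨sSup (norm '' Ω), (norm_nonneg _).trans_lt (hlt x0 hx0), ?_⟩
  ext y
  rw [mem_ball_zero_iff]
  constructor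
  · exact hlt y
  · intro hy
    obtain ⟨_, ⟨x, hx, rfl⟩, hyx⟩ := exists_lt_of_lt_csSup
      (Nonempty.image norm ⟨x0, hx0⟩) hy
    exact hfill x hx y hyx

end TH259.NS
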