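import Pool.Agent.TH259.NS.Bes
import Pool.Agent.TH259.NS.Disc
import Pool.Agent.TH298.Sch.Lim
import Pool.Agent.TH298.Sch.Avg

/-! Schiffer's problem for domains with an `n`-fold rotational symmetry. -/

open MeasureTheory Set Real Filter Topology Metric
open Pool.Agent.TH298.Sch

namespace TH259.NS

/-- the Bessel–Clifford function is a comparison function as long as it has no zero -/
theorem comp_bes {n : ℕ} {S0 : ℝ} (hS0 : 0 ≤ S0) (hz : ∀ s ∈ Icc 0 S0, B n s ≠ 0) :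
    ∃ S, S0 < S ∧ Comp n S (B n) (fun s => -B (n + 1) s) (B (n + 2)) := by
  have hB0 : 0 < B n 0 := by rw [B_zero]; positivity
  have hpos : ∀ s ∈ Icc 0 S0, 0 < B n s := by
    intro s hs
    by_contra hcon
    push Not at hcon
    have hc : ContinuousOn (B n) (Icc 0 s) := (B_cont n).continuousOn
    obtain ⟨t, ht, ht0⟩ := intermediate_value_Icc' hs.1 hc ⟨hcon, hB0.le⟩
    exact hz t ⟨ht.1, ht.2.trans hs.2⟩ ht0
  have hS : ∀ᶠ s in 𝓝 S0, 0 < B n s :=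
    ((B_cont n).tendsto S0).eventually (lt_mem_nhds (hpos S0 ⟨hS0, le_rfl⟩))
  obtain ⟨δ, hδ0, hδ⟩ := Metric.eventually_nhds_iff.1 hS
  refine ⟨S0 + δ / 2, by linarith, ⟨B_deriv n, fun s => ?_, ?_, ?_⟩⟩
  · have := (B_deriv (n + 1) s).neg
    rw [neg_neg] at this
    exact this
  · intro s hs
    rcases le_total s S0 with h | h
    · exact hpos s ⟨hs.1, h⟩
    · refine hδ ?_
      rw [Real.dist_eq, abs_of_nonneg (by linarith)]
      linarith [hs.2]
  · intro s _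
    have := B_ode n s
    linarith

theorem comp_mono {n : ℕ} {S S' : ℝ} {z z1 z2 : ℝ → ℝ} (h : Comp n S z z1 z2) (hS : S' ≤ S) :
    Comp n S' z z1 z2 :=
  ⟨h.d1, h.d2, fun s hs => h.pos s ⟨hs.1, hs.2.trans hS⟩, fun s hs => h.ineq s ⟨hs.1, hs.2.trans hS⟩⟩

/-- the rotations map the domain to its closure -/
theorem nfold_rot {n : ℕ} (hn : 0 < n) {Ω : Set ℂ} (ho : IsOpen Ω) (hb : Bornology.IsBounded Ω)
    (hne : Ω.Nonempty) (hfr : volume (frontier Ω) = 0)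
    (hs : ∀ x ∈ Ω, Complex.exp ((2 * π / n : ℝ) * Complex.I) * x ∈ Ω) {lam : ℝ} (hlam : 0 < lam)
    {R : ℝ} (hR : ∀ x ∈ Ω, ‖x‖ ≤ R) (hJ : ∀ t, 0 < t → t ≤ √lam * R → J n t ≠ 0)
    {c : ℝ} {u : ℂ → ℝ} {G : ℂ → ℂ} (h : Sol Ω lam c u G)
    (hu0 : ¬ (u =ᵐ[volume.restrict Ω] 0)) : ∀ t : ℝ, ∀ x ∈ Ω, ro t * x ∈ closure Ω := by
  have hm := ho.measurableSet
  have hc := h.c_ne hb hm hlam hu0
  have hk : 0 < √lam := Real.sqrt_pos.2 hlam
  have hkk : √lam ^ 2 = lam := Real.sq_sqrt hlam.le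
  have hn0 : (n : ℂ) ≠ 0 := by exact_mod_cast hn.ne'
  obtain ⟨ζ, hζdef⟩ : ∃ ζ : ℂ, ζ = Complex.exp ((2 * π / n : ℝ) * Complex.I) := ⟨_, rfl⟩
  have hζ1 : ‖ζ‖ = 1 := by rw [hζdef]; exact Complex.norm_exp_ofReal_mul_I _
  have hζn : ζ ^ n = 1 := by
    rw [hζdef, ← Complex.exp_nat_mul]
    have : (n : ℂ) * (((2 * π / n : ℝ) : ℂ) * Complex.I) = 2 * π * Complex.I := by
      push_cast
      field_simp
    rw [this]
    exact Complex.exp_two_pi_mul_I
  rw [← hζdef] at hs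
  have hpow : ∀ k : ℕ, ∀ x ∈ Ω, ζ ^ k * x ∈ Ω := by
    intro k
    induction k with
    | zero => intro x hx; simpa using hx
    | succ k ih =>
      intro x hx
      rw [pow_succ, mul_assoc]
      exact ih _ (hs x hx)
  have hΩ : ∀ x, ζ * x ∈ Ω ↔ x ∈ Ω := by
    intro x
    constructor
    · intro hx
      have h1 := hpow (n - 1) _ hx
      rw [← mul_assoc, ← pow_succ, Nat.sub_add_cancel hn, hζn, one_mul] at h1
      exact h1
    · exact hs x
  obtain ⟨u', G', hS, hu'⟩ := h.symm hb hm hn hζ1 hζn hΩ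
  -- R is positive
  have hRpos : 0 < R := by
    obtain ⟨x, hx⟩ := hne
    by_contra hcon
    push Not at hcon
    obtain ⟨δ, hδ0, hδ⟩ := Metric.isOpen_iff.1 ho x hx
    have hx0 : x = 0 := norm_le_zero_iff.1 ((hR x hx).trans hcon)
    have h1 : ((δ / 2 : ℝ) : ℂ) ∈ Ω := by
      apply hδ
      rw [hx0, mem_ball_zero_iff, Complex.norm_real, Real.norm_eq_abs, abs_of_pos (by linarith)]
      linarith
    have h2 := hR _ h1
    rw [Complex.norm_real, Real.norm_eq_abs, abs_of_pos (by linarith)] at h2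
    linarith
  -- the comparison function
  have hS00 : 0 < lam * R ^ 2 / 4 := by positivity
  obtain ⟨S, hSS, hcomp⟩ := comp_bes (n := n) hS00.le (by
    intro s hs
    rcases eq_or_lt_of_le hs.1 with h0 | h0
    · rw [← h0, B_zero]; positivity
    · intro hz
      have ht : 0 < 2 * √s := by positivity
      refine hJ (2 * √s) ht ?_ ?_
      · have h1 : s ≤ (√lam * R / 2) ^ 2 := by
          rw [div_pow, mul_pow, hkk]
          linarith [hs.2]
        have h2 := Real.sqrt_le_sqrt h1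
        rw [Real.sqrt_sq (by positivity)] at h2
        linarith
      · rw [J_eq]
        have : (2 * √s) ^ 2 / 4 = s := by
          rw [mul_pow, Real.sq_sqrt h0.le]; ring
        rw [this, hz, mul_zero])
  -- room for the parameters
  obtain ⟨δ, hδ0, hδ1, hδS⟩ : ∃ δ : ℝ, 0 < δ ∧ δ ≤ 1 ∧ (1 + 7 * δ) * (lam * R ^ 2 / 4) ≤ S := by
    refine ⟨min 1 ((S - lam * R ^ 2 / 4) / (7 * (lam * R ^ 2 / 4))), ?_, min_le_left _ _, ?_⟩
    · exact lt_min one_pos (div_pos (by linarith) (by positivity))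
    · have h1 : min 1 ((S - lam * R ^ 2 / 4) / (7 * (lam * R ^ 2 / 4))) * (7 * (lam * R ^ 2 / 4))
          ≤ S - lam * R ^ 2 / 4 := by
        have := min_le_right 1 ((S - lam * R ^ 2 / 4) / (7 * (lam * R ^ 2 / 4)))
        rwa [le_div_iff₀ (by positivity)] at this
      linarith
  have hμb : ((1 + δ) * lam) * ((1 + δ) * R) ^ 2 / 4 ≤ S := by
    have h1 : (1 + δ) ^ 3 ≤ 1 + 7 * δ := by nlinarith [mul_nonneg hδ0.le (sub_nonneg.2 hδ1), mul_nonneg (mul_nonneg hδ0.le hδ0.le) (sub_nonneg.2 hδ1)]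
    have h2 : ((1 + δ) * lam) * ((1 + δ) * R) ^ 2 / 4 = (1 + δ) ^ 3 * (lam * R ^ 2 / 4) := by ring
    rw [h2]
    exact (mul_le_mul_of_nonneg_right h1 hS00.le).trans hδS
  have hcomp' := comp_mono hcomp hμb
  have hrz : ∀ ψ, SC ψ → ∫ x in Ω, Lr ψ x = 0 := fun ψ hψ =>
    rot_zero (n := n) hn ho hfr hR (show R < (1 + δ) * R by nlinarith)
      (by positivity) hlam (show lam < (1 + δ) * lam by nlinarith) hcomp' hS hc
      (by rw [← hζdef]; exact hΩ) (by rw [← hζdef]; exact hu') hψ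
  exact fun t x hx => rot_inv ho hb hrz t hx

/-- the theorem -/
theorem nfold {n : ℕ} (hn : 0 < n) {Ω : Set ℂ} (ho : IsOpen Ω) (hb : Bornology.IsBounded Ω)
    (hne : Ω.Nonempty) (hco : IsPreconnected Ωᶜ) (hint : interior (closure Ω) = Ω)
    (hfr : volume (frontier Ω) = 0)
    (hs : ∀ x ∈ Ω, Complex.exp ((2 * π / n : ℝ) * Complex.I) * x ∈ Ω) {lam : ℝ} (hlam : 0 < lam)
    {R : ℝ} (hR : ∀ x ∈ Ω, ‖x‖ ≤ R) (hJ : ∀ t, 0 < t → t ≤ √lam * R → J n t ≠ 0)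
    {c : ℝ} {u : ℂ → ℝ} {G : ℂ → ℂ} (h : Sol Ω lam c u G)
    (hu0 : ¬ (u =ᵐ[volume.restrict Ω] 0)) : ∃ r : ℝ, 0 < r ∧ Ω = ball 0 r :=
  disc_of_rot ho hb hne hco hint (nfold_rot hn ho hb hne hfr hs hlam hR hJ h hu0)

end TH259.NS
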