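import Pool.Agent.TH259.FB.Band
import Pool.Agent.TH259.NS.Main

/-! Convex domains with an `n`-fold rotational symmetry. -/

open MeasureTheory Set Real Filter Topology
open Pool.Agent.TH234.BK

namespace TH259.NS

open TH259.FB

/-- If one width is less than `2πk / r` then the diameter is. -/
theorem band_k {Ω : Set ℂ} (ho : IsOpen Ω) (hc : Convex ℝ Ω) (hb : Bornology.IsBounded Ω)
    (hne : Ω.Nonempty) {r : ℝ} (hr : 0 < r)
    (hcos : ∀ ξ : ℂ, ‖ξ‖ = r → ∫ x in Ω, cos (inner ℝ ξ x) = 0)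
    (hsin : ∀ ξ : ℂ, ‖ξ‖ = r → ∫ x in Ω, sin (inner ℝ ξ x) = 0) {u : ℂ} (hu : ‖u‖ = 1) {w : ℝ}
    {k : ℕ} (hk1 : 1 ≤ k)
    (hw : ∀ x ∈ Ω, ∀ y ∈ Ω, inner ℝ u (x - y) ≤ w) (hrw : r * w < 2 * π * k) :
    r * Metric.diam Ω < 2 * π * k := by
  have hK := KK_body ho hc hb hne
  have hz := circle_complex hK.1 hr (KK_FT ho hc hb hr hcos hsin)
  have hC : ∀ θ, ∃ (A B : ℝ) (L : ℝ → ℝ), CD (KK Ω) r θ A B L := fun θ => chordData hK hz θ
  have hKne : (KK Ω).Nonempty := by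
    obtain ⟨x, hx⟩ := hK.2.2
    exact ⟨x, interior_subset hx⟩
  -- the small width
  obtain ⟨θ0, h1, h2⟩ := dir_exists hu
  have hcl : ∀ x ∈ closure Ω, ∀ y ∈ closure Ω, inner ℝ u (x - y) ≤ w := by
    intro x hx y hy
    have hcl2 : IsClosed {p : ℂ × ℂ | inner ℝ u (p.1 - p.2) ≤ w} :=
      isClosed_le (continuous_const.inner (continuous_fst.sub continuous_snd)) continuous_const
    have h3 : (x, y) ∈ closure (Ω ×ˢ Ω) := by
      rw [closure_prod_eq]
      exact ⟨hx, hy⟩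
    exact closure_minimal (fun p hp => hw _ hp.1 _ hp.2) hcl2 h3
  have hsmall : r * wd (KK Ω) θ0 < 2 * π * k := by
    obtain ⟨P, hP, Q, hQ, hPQ⟩ := wd_attained hK.1 hKne θ0
    rw [← hPQ, gg_cx h1 h2, gg_cx h1 h2, ← inner_sub_right]
    exact (mul_le_mul_of_nonneg_left (hcl _ hQ _ hP) hr.le).trans_lt hrw
  have hall : ∀ θ, r * wd (KK Ω) θ < 2 * π * k := by
    intro θ
    by_contra hcon
    push Not at hcon
    have hcont : Continuous fun θ => r * wd (KK Ω) θ := continuous_const.mul (wd_cont hK.1)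
    have himg := mem_range_of_exists_le_of_exists_ge hcont ⟨θ0, hsmall.le⟩ ⟨θ, hcon⟩
    obtain ⟨θ', hθ'⟩ := himg
    exact wd_ne hr hC θ' k hk1 hθ'
  -- the diameter
  have hKc : IsCompact (closure Ω) := hb.isCompact_closure
  have hclne : (closure Ω).Nonempty := hne.closure
  obtain ⟨p, hp, hmax⟩ := (hKc.prod hKc).exists_isMaxOn (hclne.prod hclne)
    (f := fun p : ℂ × ℂ => dist p.1 p.2) continuous_dist.continuousOn
  have hdiam : Metric.diam Ω ≤ dist p.1 p.2 := by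
    refine Metric.diam_le_of_forall_dist_le dist_nonneg fun x hx y hy => ?_
    exact hmax (show (x, y) ∈ closure Ω ×ˢ closure Ω from ⟨subset_closure hx, subset_closure hy⟩)
  have hpi := Real.pi_pos
  rcases eq_or_ne p.1 p.2 with h | h
  · rw [h, dist_self] at hdiam
    have : r * Metric.diam Ω ≤ 0 := mul_nonpos_of_nonneg_of_nonpos hr.le hdiam
    have hk' : (1 : ℝ) ≤ k := by exact_mod_cast hk1
    have : 0 < 2 * π * k := by positivity
    linarith
  · have hnz : 0 < ‖p.1 - p.2‖ := norm_pos_iff.2 (sub_ne_zero.2 h)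
    obtain ⟨v, hv⟩ : ∃ v : ℂ, v = ((‖p.1 - p.2‖⁻¹ : ℝ) : ℂ) * (p.1 - p.2) := ⟨_, rfl⟩
    have hvn : ‖v‖ = 1 := by
      rw [hv, norm_mul, Complex.norm_real, Real.norm_eq_abs, abs_of_pos (inv_pos.2 hnz),
        inv_mul_cancel₀ hnz.ne']
    have hvi : inner ℝ v (p.1 - p.2) = ‖p.1 - p.2‖ := by
      have e : v = (‖p.1 - p.2‖⁻¹ : ℝ) • (p.1 - p.2) := by rw [hv, Complex.real_smul]
      rw [e, inner_smul_left, real_inner_self_eq_norm_sq]
      simp only [conj_trivial]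
      field_simp
    obtain ⟨θ, g1, g2⟩ := dir_exists hvn
    have h5 := wd_ge hK.1 (θ := θ) (P := ![p.2.re, p.2.im]) (Q := ![p.1.re, p.1.im])
      (by rw [KK, mem_preimage, cx_surj]; exact hp.2)
      (by rw [KK, mem_preimage, cx_surj]; exact hp.1)
    rw [gg_cx g1 g2, gg_cx g1 g2, cx_surj, cx_surj, ← inner_sub_right, hvi] at h5
    rw [dist_eq_norm] at hdiam
    exact (mul_le_mul_of_nonneg_left (hdiam.trans h5) hr.le).trans_lt (hall θ)

/-- the circumradius of a set with an `n`-fold symmetry, `n` even -/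
theorem norm_le_even {n : ℕ} (hn : 0 < n) (hev : Even n) {Ω : Set ℂ} (hb : Bornology.IsBounded Ω)
    (hpow : ∀ k : ℕ, ∀ x ∈ Ω, Complex.exp ((2 * π / n : ℝ) * Complex.I) ^ k * x ∈ Ω) {x : ℂ}
    (hx : x ∈ Ω) : 2 * ‖x‖ ≤ Metric.diam Ω := by
  obtain ⟨m, hm⟩ := hev
  have hn0 : (n : ℂ) ≠ 0 := by exact_mod_cast hn.ne'
  have h1 := hpow m x hx
  have e : Complex.exp ((2 * π / n : ℝ) * Complex.I) ^ m = -1 := by
    rw [← Complex.exp_nat_mul]
    have : (m : ℂ) * (((2 * π / n : ℝ) : ℂ) * Complex.I) = π * Complex.I := by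
      have hnm : (n : ℂ) = m + m := by rw [hm]; push_cast; ring
      push_cast
      field_simp
      rw [hnm]
      ring
    rw [this]
    exact Complex.exp_pi_mul_I
  rw [e, neg_one_mul] at h1
  have h2 := Metric.dist_le_diam_of_mem hb hx h1
  rw [dist_eq_norm, sub_neg_eq_add, ← two_mul, norm_mul] at h2
  simpa using h2

/-- the same for odd `n` -/
theorem norm_le_odd {n : ℕ} (hn : 0 < n) (hod : Odd n) {Ω : Set ℂ} (hb : Bornology.IsBounded Ω)
    (hpow : ∀ k : ℕ, ∀ x ∈ Ω, Complex.exp ((2 * π / n : ℝ) * Complex.I) ^ k * x ∈ Ω) {x : ℂ}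
    (hx : x ∈ Ω) : 2 * cos (π / (2 * n)) * ‖x‖ ≤ Metric.diam Ω := by
  obtain ⟨m, hm⟩ := hod
  have hn0 : (n : ℝ) ≠ 0 := by positivity
  have h1 := hpow m x hx
  have hφ : (m : ℝ) * (2 * π / n) = π - π / n := by
    have hnm : (n : ℝ) = 2 * m + 1 := by rw [hm]; push_cast; ring
    rw [hnm] at hn0 ⊢
    field_simp
    ring
  have e : Complex.exp ((2 * π / n : ℝ) * Complex.I) ^ m
      = Complex.exp (((π - π / n : ℝ) : ℂ) * Complex.I) := by
    rw [← Complex.exp_nat_mul, ← hφ]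
    congr 1
    push_cast
    ring
  rw [e] at h1
  have h2 := Metric.dist_le_diam_of_mem hb hx h1
  have e2 : x - Complex.exp (((π - π / n : ℝ) : ℂ) * Complex.I) * x
      = (1 - Complex.exp (((π - π / n : ℝ) : ℂ) * Complex.I)) * x := by ring
  rw [dist_eq_norm, e2, norm_mul] at h2
  have hcos : 0 ≤ cos (π / (2 * n)) := by
    apply cos_nonneg_of_neg_pi_div_two_le_of_le
    · have : 0 ≤ π / (2 * n) := by positivity
      linarith [pi_pos]
    · have hn1 : (1 : ℝ) ≤ n := by exact_mod_cast hn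
      apply div_le_div_of_nonneg_left pi_pos.le (by norm_num)
      linarith
  have hnorm : ‖(1 : ℂ) - Complex.exp (((π - π / n : ℝ) : ℂ) * Complex.I)‖
      = 2 * cos (π / (2 * n)) := by
    have h3 : ‖(1 : ℂ) - Complex.exp (((π - π / n : ℝ) : ℂ) * Complex.I)‖ ^ 2
        = (2 * cos (π / (2 * n))) ^ 2 := by
      rw [← Complex.normSq_eq_norm_sq, Complex.normSq_apply, Complex.exp_mul_I,
        ← Complex.ofReal_cos, ← Complex.ofReal_sin]
      simp only [Complex.sub_re, Complex.sub_im, Complex.one_re, Complex.one_im, Complex.add_re,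
        Complex.add_im, Complex.mul_re, Complex.mul_im, Complex.ofReal_re, Complex.ofReal_im,
        Complex.I_re, Complex.I_im]
      rw [cos_pi_sub, sin_pi_sub]
      have h4 : cos (π / n) = 2 * cos (π / (2 * n)) ^ 2 - 1 := by
        rw [← cos_two_mul]
        congr 1
        field_simp
      have h5 := sin_sq_add_cos_sq (π / n)
      nlinarith
    have h6 := (sq_eq_sq_iff_abs_eq_abs _ _).1 h3
    rwa [abs_of_nonneg (norm_nonneg _), abs_of_nonneg (by positivity)] at h6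
  rw [hnorm] at h2
  exact h2

/-- the convex version -/
theorem nfold_convex {n : ℕ} (hn : 2 ≤ n) {Ω : Set ℂ} (ho : IsOpen Ω)
    (hcv : Convex ℝ Ω) (hb : Bornology.IsBounded Ω) (hne : Ω.Nonempty)
    (hs : ∀ x ∈ Ω, Complex.exp ((2 * π / n : ℝ) * Complex.I) * x ∈ Ω) {lam : ℝ} (hlam : 0 < lam)
    {K : ℕ} (hK : 1 ≤ K) {e : ℂ} (he : ‖e‖ = 1) {w : ℝ}
    (hw : ∀ x ∈ Ω, ∀ y ∈ Ω, inner ℝ e (x - y) ≤ w) (hKw : √lam * w < 2 * π * K)
    (hJ : ∀ t, 0 < t → (if Even n then 2 else 2 * cos (π / (2 * n))) * t ≤ 2 * π * K → J n t ≠ 0)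
    {c : ℝ} {u : ℂ → ℝ} {G : ℂ → ℂ} (h : Pool.Agent.TH298.Sch.Sol Ω lam c u G)
    (hu0 : ¬ (u =ᵐ[volume.restrict Ω] 0)) : ∃ r : ℝ, 0 < r ∧ Ω = Metric.ball 0 r := by
  have hm := ho.measurableSet
  have hn0 : 0 < n := by omega
  have hk : 0 < √lam := Real.sqrt_pos.2 hlam
  have hkk : √lam ^ 2 = lam := Real.sq_sqrt hlam.le
  have hft : ∀ ξ : ℂ, ‖ξ‖ = √lam → ∫ x in Ω, Real.cos (inner ℝ ξ x) = 0 ∧
      ∫ x in Ω, Real.sin (inner ℝ ξ x) = 0 := fun ξ hξ =>
    Pool.Agent.W632.Schiffer.ft_zero hb hm hlam h.u2 h.h1 h.h2 hu0 ξ (by rw [hξ, hkk])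
  have hd := band_k ho hcv hb hne hk (fun ξ hξ => (hft ξ hξ).1) (fun ξ hξ => (hft ξ hξ).2) he hK hw
    hKw
  have hpow : ∀ k : ℕ, ∀ x ∈ Ω, Complex.exp ((2 * π / n : ℝ) * Complex.I) ^ k * x ∈ Ω := by
    intro k
    induction k with
    | zero => intro x hx; simpa using hx
    | succ k ih =>
      intro x hx
      rw [pow_succ, mul_assoc]
      exact ih _ (hs x hx)
  obtain ⟨κ, hκ⟩ : ∃ κ : ℝ, κ = if Even n then 2 else 2 * cos (π / (2 * n)) := ⟨_, rfl⟩
  rw [← hκ] at hJ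
  have hκ0 : 0 < κ := by
    rw [hκ]
    split_ifs
    · norm_num
    · apply mul_pos two_pos
      apply cos_pos_of_mem_Ioo
      constructor
      · have : 0 ≤ π / (2 * n) := by positivity
        linarith [pi_pos]
      · have hn1 : (2 : ℝ) ≤ n := by exact_mod_cast hn
        apply div_lt_div_of_pos_left pi_pos (by norm_num)
        linarith
  have hx : ∀ x ∈ Ω, κ * ‖x‖ ≤ Metric.diam Ω := by
    intro x hx
    rw [hκ]
    split_ifs with hev
    · exact norm_le_even hn0 hev hb hpow hx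
    · exact norm_le_odd hn0 (Nat.not_even_iff_odd.1 hev) hb hpow hx
  refine Pool.Agent.TH298.Sch.ball_of_rot ho hb hcv hne
    (nfold_rot (R := Metric.diam Ω / κ) hn0 ho hb hne (hcv.addHaar_frontier volume) hs hlam
    (fun x hxΩ => by rw [le_div_iff₀ hκ0, mul_comm]; exact hx x hxΩ) (fun t ht htR => ?_) h hu0)
  refine hJ t ht ?_
  have h1 : κ * t ≤ κ * (√lam * (Metric.diam Ω / κ)) := mul_le_mul_of_nonneg_left htR hκ0.le
  have h2 : κ * (√lam * (Metric.diam Ω / κ)) = √lam * Metric.diam Ω := by field_simp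
  rw [h2] at h1
  linarith

end TH259.NS
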